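import Mathlib
import Pool.Agent.MP_f67ce1_al.SD.Lower

set_option autoImplicit false

namespace Pool.Agent.Results.MP_f67ce1_al.SharpDimension

/-- A ring is left hereditary if every left ideal is a projective left module. -/
def LeftHereditary (R : Type) [Ring R] : Prop :=
  ∀ I : Submodule R R, Module.Projective R I

/-- A proper two-sided ideal `Q` is prime if `a R b ⊆ Q` implies `a ∈ Q` or `b ∈ Q`. -/
def IsPrimeTwoSided {R : Type} [Ring R] (Q : TwoSidedIdeal R) : Prop :=
  Q ≠ ⊤ ∧ ∀ a b : R, (∀ r : R, a * r * b ∈ Q) → a ∈ Q ∨ b ∈ Q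

/-- The prime radical: the intersection of all prime two-sided ideals. -/
def primeRadical (R : Type) [Ring R] : TwoSidedIdeal R :=
  sInf {Q : TwoSidedIdeal R | IsPrimeTwoSided Q}

/-- Some left ideal of `S` has projective dimension `d` as a left `S`-module. -/
def HasLeftIdealOfDim (S : Type) [Ring S] (d : WithBot ℕ∞) : Prop :=
  ∃ L : Submodule S S, CategoryTheory.projectiveDimension (ModuleCat.of S L) = d

open Pool.Agent.MP_f67ce1_al CategoryTheory

theorem mem_rad_iff (a : ℕ) (x : SD.R (2 * a + 1)) : x ∈ primeRadical _ ↔ SD.ρ x = 0 := by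
  unfold primeRadical
  rw [TwoSidedIdeal.mem_sInf]
  constructor
  · intro h
    refine (TwoSidedIdeal.mem_ker _).1
      (h (TwoSidedIdeal.ker SD.ρ) ⟨fun htop => ?_, fun u v huv => ?_⟩)
    · have : (1 : SD.R (2 * a + 1)) ∈ TwoSidedIdeal.ker SD.ρ := by rw [htop]; trivial
      rw [TwoSidedIdeal.mem_ker, map_one] at this
      exact SD.tv_ne 0 (0, true) (LinearMap.congr_fun this _)
    · simp only [TwoSidedIdeal.mem_ker] at huv ⊢
      exact SD.ker_prime u v huv
  · intro h Q hQ
    by_contra hx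
    have key : ∀ m : ℕ, ∃ l : List (SD.R (2 * a + 1)), l.length = m ∧ (∀ y ∈ l, SD.ρ y = 0) ∧
        l.prod ∉ Q := fun m => by
      induction m with
      | zero => exact ⟨[], rfl, by simp, fun h1 => hQ.1 ((TwoSidedIdeal.one_mem_iff Q).1 h1)⟩
      | succ m ih =>
        obtain ⟨l, h1, h2, h3⟩ := ih
        obtain ⟨r, hr⟩ := not_forall.1 fun h4 => (hQ.2 x l.prod h4).elim hx h3
        refine ⟨(x * r) :: l, by simp [h1], fun y hy => ?_, hr⟩
        rcases List.mem_cons.1 hy with rfl | e
        · rw [map_mul, h, zero_mul]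
        · exact h2 y e
    obtain ⟨l, h1, h2, h3⟩ := key (a + 1)
    exact h3 (SD.nilp a l h1 h2 ▸ Q.zero_mem)

theorem mk_eq_zero {R : Type} [Ring R] (I : TwoSidedIdeal R) (x : R) :
    RingCon.mk' I.ringCon x = 0 ↔ x ∈ I := by
  change (x : I.ringCon.Quotient) = (0 : R) ↔ _
  rw [RingCon.eq, TwoSidedIdeal.rel_iff, sub_zero]

/-- The greatest projective dimension of a left ideal of `R / P(R)`, over all left hereditary
rings `R` with `P(R) ^ n = 0`, is `2 n - 2`. -/
theorem result (n : ℕ) (hn : 1 ≤ n) :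
    IsGreatest
      {d : WithBot ℕ∞ | ∃ (R : Type) (_ : Ring R), LeftHereditary R ∧
        (∀ l : List R, l.length = n → (∀ x ∈ l, x ∈ primeRadical R) → l.prod = 0) ∧
        HasLeftIdealOfDim (primeRadical R).ringCon.Quotient d}
      ((2 * n - 2 : ℕ) : WithBot ℕ∞) := by
  obtain ⟨a, rfl⟩ : ∃ a, n = a + 1 := ⟨n - 1, by omega⟩
  rw [show 2 * (a + 1) - 2 = 2 * a by omega]
  have up : ∀ (R : Type) [Ring R], LeftHereditary R →
      (∀ l : List R, l.length = a + 1 → (∀ x ∈ l, x ∈ primeRadical R) → l.prod = 0) →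
      ∀ L : Submodule (primeRadical R).ringCon.Quotient (primeRadical R).ringCon.Quotient,
        projectiveDimension (ModuleCat.of (primeRadical R).ringCon.Quotient L) ≤
          ((2 * a : ℕ) : WithBot ℕ∞) := fun R _ h1 h2 L =>
    (projectiveDimension_le_iff _ _).2 (SD.upper (RingCon.mk' _) (RingCon.mk'_surjective _) h1 a
      (fun l hl h0 => h2 l hl fun x hx => (mk_eq_zero _ x).1 (h0 x hx)) L)
  constructor
  · have h2 : ∀ l : List (SD.R (2 * a + 1)), l.length = a + 1 →
        (∀ x ∈ l, x ∈ primeRadical _) → l.prod = 0 := fun l hl h =>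
      SD.nilp a l hl fun x hx => (mem_rad_iff a x).1 (h x hx)
    obtain ⟨L, hL⟩ := SD.lower a (RingCon.mk' (primeRadical _).ringCon) (RingCon.mk'_surjective _)
      fun x => (mk_eq_zero _ x).trans (mem_rad_iff a x)
    exact ⟨SD.R (2 * a + 1), inferInstance, SD.hereditary, h2, L,
      le_antisymm (up _ SD.hereditary h2 L) ((projectiveDimension_ge_iff _ _).2 hL)⟩
  · rintro d ⟨R, _, h1, h2, L, rfl⟩
    exact up R h1 h2 L

/-- The case `n = 2`: part (ii) of the question fails for a ring whose prime radical has square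
zero. -/
theorem q_ii :
    ∃ (R : Type) (_ : Ring R), LeftHereditary R ∧
      (∀ x ∈ primeRadical R, ∀ y ∈ primeRadical R, x * y = 0) ∧
      ¬ LeftHereditary (primeRadical R).ringCon.Quotient := by
  obtain ⟨R, _, h1, h2, L, hL⟩ := (result 2 (by norm_num)).1
  refine ⟨R, inferInstance, h1, fun x hx y hy => ?_, fun h => ?_⟩
  · simpa using h2 [x, y] rfl (by simp [hx, hy])
  · have := (projectiveDimension_lt_iff (n := 0 + 1)).2 (SD.pd_one (h L) 0)
    rw [hL] at this
    exact absurd this (by decide)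

end Pool.Agent.Results.MP_f67ce1_al.SharpDimension
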